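import Mathlib
import Pool.Agent.TH434.FR.List

/-!
# The generic `k`-rank of ternary forms

For `n = 3` variables, all `k ≥ 4` and all `d ≥ 2` except `52` explicit pairs `(k, d)` (all with
`k ≤ 9` and `d ≤ 87`), a general form of degree `k d` is a sum of `s` and not fewer `k`-th powers of
forms of degree `d`, where `s = ⌈N(k d) / N(d)⌉`, `N(m) = (m + 2).choose 2`, is the parameter count.

By Terracini's lemma it is enough that the powers `g i ^ (k - 1)` of some forms of degree `d`
generate all forms of degree `k d`. For powers of linear forms this is, by apolarity, the emptiness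
of a system of plane curves of degree `k d` with `s` general points of multiplicity `d + 1`.
-/

set_option autoImplicit false

namespace Pool.Agent.Results.MP_27fe77_ag.TernaryGenericRank

open MvPolynomial

/-- `f` is a sum of `t` `k`-th powers of forms of degree `d` in three variables. -/
def IsSum (k d t : ℕ) (f : MvPolynomial (Fin 3) ℂ) : Prop :=
  ∃ g : Fin t → MvPolynomial (Fin 3) ℂ, (∀ i, (g i).IsHomogeneous d) ∧ f = ∑ i, g i ^ k

/-- The generic `k`-rank of ternary forms of degree `k d` is `s`: there is a nonzero polynomial `Ψ`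
in the coefficients of the forms of degree `k d` such that `s` is the least number of `k`-th powers
of forms of degree `d` with sum `f`, for every form `f` at which `Ψ` does not vanish. -/
def IsGenericRank (k d s : ℕ) : Prop :=
  ∃ Ψ : MvPolynomial {m : Fin 3 →₀ ℕ // Finsupp.degree m = k * d} ℂ, Ψ ≠ 0 ∧
    ∀ f : MvPolynomial (Fin 3) ℂ, f.IsHomogeneous (k * d) →
      eval (fun m : {m : Fin 3 →₀ ℕ // Finsupp.degree m = k * d} => f.coeff m.1) Ψ ≠ 0 →
      IsLeast {t : ℕ | IsSum k d t f} s

/-- The `52` pairs `(k, d)` which are left out. -/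
def exceptions : List (ℕ × ℕ) :=
  [(4, 2), (4, 5), (4, 15), (4, 31), (4, 32), (4, 33), (5, 2), (5, 3), (5, 4), (5, 5), (5, 6),
   (5, 7), (5, 9), (5, 12), (5, 17), (5, 26), (5, 27), (5, 53), (5, 54), (5, 55), (5, 56), (5, 57),
   (6, 2), (6, 3), (6, 4), (6, 5), (6, 9), (6, 10), (6, 12), (6, 15), (6, 19), (6, 20), (6, 26),
   (6, 27), (6, 40), (6, 41), (6, 42), (6, 82), (6, 83), (6, 84), (6, 85), (6, 86), (6, 87), (7, 2),
   (7, 3), (7, 4), (7, 5), (7, 6), (7, 7), (8, 2), (8, 3), (9, 2)]

/-- **The generic `k`-rank of ternary forms of degree `k d`** is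
`min {s : s * N(d) ≥ N(k d)}` for all `k ≥ 4` and `d ≥ 2` outside the list of exceptions. -/
theorem result (k d : ℕ) (hk : 4 ≤ k) (hd : 2 ≤ d) (h : (k, d) ∉ exceptions) :
    IsGenericRank k d (sInf {s : ℕ | (k * d + 2).choose 2 ≤ s * (d + 2).choose 2}) := by
  have h1 := Pool.Agent.TH434.FR.genRank_all hk hd h
  obtain ⟨h2, h3⟩ := Pool.Agent.TH434.FR.expRank_spec k d
  have h4 : sInf {s : ℕ | (k * d + 2).choose 2 ≤ s * (d + 2).choose 2} =
      Pool.Agent.TH434.FR.expRank k d := by
    refine le_antisymm (Nat.sInf_le h2) ?_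
    refine le_csInf ⟨_, h2⟩ fun s hs => ?_
    by_contra hcon
    have h5 : s * (d + 2).choose 2 ≤
        (Pool.Agent.TH434.FR.expRank k d - 1) * (d + 2).choose 2 :=
      Nat.mul_le_mul_right _ (by omega)
    have h6 : (k * d + 2).choose 2 ≤ s * (d + 2).choose 2 := hs
    omega
  rw [h4]
  exact h1

end Pool.Agent.Results.MP_27fe77_ag.TernaryGenericRank
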